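import Mathlib
import Pool.Agent.H54.Val3b

namespace Pool.Agent.Results.MP_6a8d80_nt.Int

open Nat Finset Pool.Agent.H54.SuperCat

/-- the normalised sum `a_n` -/
def a (n : ℕ) : ℚ :=
  1 / (n * (2 * n + 1) * ((2 * n).choose n : ℚ)) *
    ∑ k ∈ range n, (5 * k + 1) * ((2 * k).choose k : ℚ) ^ 2 * ((3 * k).choose k : ℚ) * (-192) ^ (n - 1 - k)

def T (j m : ℕ) : ℚ :=
  (-1) ^ j * (3 * m)! * h j * h (2 * m - j) / (3 ^ j * 4 ^ m * j ! * (3 * m - j)! * m ! ^ 2)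
def A (j m : ℕ) : ℚ := T j m * (16 * m * (3 * m - j) / (3 * (4 * m - 2 * j - 1)))
def B (j m : ℕ) : ℚ := T j m * (j * (3 + 7 * m + 2 * j * m) / ((3 * m - j + 1) * (3 * m - j + 2)))

lemma cl (j d : ℕ) : A j (j + d + 1 + 1) - A j (j + d + 1) = B (j + 1) (j + d + 1) - B j (j + d + 1) := by
  have h1 : (4 * ((j : ℚ) + d + 1 + 1) - 2 * j - 1) = 2 * j + 4 * d + 7 := by ring
  have h2 : (4 * ((j : ℚ) + d + 1) - 2 * j - 1) = 2 * j + 4 * d + 3 := by ring
  have h3 : (3 * ((j : ℚ) + d + 1) - (j + 1)) = 2 * j + 3 * d + 2 := by ring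
  have h4 : (3 * ((j : ℚ) + d + 1) - j) = 2 * j + 3 * d + 3 := by ring
  simp only [A, B, T, show 2 * (j + d + 1 + 1) - j = j + 2 * d + 1 + 1 + 1 + 1 by omega,
    show 2 * (j + d + 1) - j = j + 2 * d + 1 + 1 by omega,
    show 2 * (j + d + 1) - (j + 1) = j + 2 * d + 1 by omega,
    show 3 * (j + d + 1 + 1) - j = 2 * j + 3 * d + 2 + 1 + 1 + 1 + 1 by omega,
    show 3 * (j + d + 1) - j = 2 * j + 3 * d + 2 + 1 by omega,
    show 3 * (j + d + 1) - (j + 1) = 2 * j + 3 * d + 2 by omega]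
  simp only [show 3 * (j + d + 1 + 1) = 3 * (j + d + 1) + 1 + 1 + 1 by ring,
    factorial_succ (3 * (j + d + 1) + 1 + 1), factorial_succ (3 * (j + d + 1) + 1),
    factorial_succ (3 * (j + d + 1)), factorial_succ (2 * j + 3 * d + 2 + 1 + 1 + 1),
    factorial_succ (2 * j + 3 * d + 2 + 1 + 1), factorial_succ (2 * j + 3 * d + 2 + 1),
    factorial_succ (2 * j + 3 * d + 2), factorial_succ (j + d + 1), factorial_succ j,
    h.eq_2 (j + 2 * d + 1 + 1 + 1), h.eq_2 (j + 2 * d + 1 + 1), h.eq_2 (j + 2 * d + 1), h.eq_2 j,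
    pow_succ (-1 : ℚ), pow_succ (3 : ℚ), pow_succ (4 : ℚ)]
  push_cast
  rw [h1, h2, h3, h4]
  field_simp
  ring

lemma dg (n : ℕ) : B n n + A n (n + 1) = (5 * n + 1) * T n n := by
  have h1 : (4 * ((n : ℚ) + 1) - 2 * n - 1) = 2 * n + 3 := by ring
  have h2 : (3 * (n : ℚ) - n) = 2 * n := by ring
  simp only [A, B, T, show 2 * (n + 1) - n = n + 1 + 1 by omega, show 2 * n - n = n by omega,
    show 3 * (n + 1) - n = 2 * n + 1 + 1 + 1 by omega, show 3 * n - n = 2 * n by omega]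
  simp only [show 3 * (n + 1) = 3 * n + 1 + 1 + 1 by ring, factorial_succ, h.eq_2, pow_succ (4 : ℚ)]
  push_cast
  rw [h1, h2]
  field_simp
  ring

lemma tel (m n : ℕ) (hm : m ≤ n) :
    ∑ j ∈ range m, A j (n + 1) = ∑ j ∈ range m, A j n + B m n := by
  induction m with
  | zero => simp [B]
  | succ m ih =>
    rw [sum_range_succ, ih (by omega), sum_range_succ]
    obtain ⟨d, rfl⟩ : ∃ d, n = m + d + 1 := ⟨n - m - 1, by omega⟩
    linarith [cl m d]

lemma psi (n : ℕ) : ∑ j ∈ range n, A j n = ∑ k ∈ range n, (5 * k + 1) * T k k := by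
  induction n with
  | zero => rfl
  | succ n ih => rw [sum_range_succ, tel n n le_rfl, ih, sum_range_succ, ← dg]; ring

lemma aT (k : ℕ) : ((2 * k).choose k : ℚ) ^ 2 * ((3 * k).choose k : ℚ) = (-192) ^ k * T k k := by
  simp only [T, show 2 * k - k = k by omega, show 3 * k - k = 2 * k by omega]
  rw [cb, Nat.cast_choose ℚ (show k ≤ 3 * k by omega), show 3 * k - k = 2 * k by omega,
    show (-192 : ℚ) = (-1) * (4 * 4 * 4 * 3) by norm_num, mul_pow, mul_pow, mul_pow, mul_pow]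
  have : ((-1 : ℚ) ^ k) ^ 2 = 1 := by rw [← pow_mul]; exact Even.neg_one_pow ⟨k, by ring⟩
  field_simp
  rw [this, mul_one]

/-- the sum -/
def S (n : ℕ) : ℚ :=
  ∑ k ∈ range n, (5 * k + 1) * ((2 * k).choose k : ℚ) ^ 2 * ((3 * k).choose k : ℚ) * (-192) ^ (n - 1 - k)

lemma S_eq (n : ℕ) : S (n + 1) = (-192) ^ n * ∑ j ∈ range (n + 1), A j (n + 1) := by
  rw [psi, S, mul_sum]
  refine sum_congr rfl fun k hk => ?_
  obtain ⟨e, rfl⟩ := Nat.exists_eq_add_of_le (Nat.lt_succ_iff.1 (mem_range.1 hk))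
  rw [mul_assoc (5 * (k : ℚ) + 1), aT, show k + e + 1 - 1 - k = e by omega, pow_add]
  ring

lemma step (n : ℕ) : S (n + 2) = -192 * S (n + 1) + (5 * (n + 1 : ℕ) + 1) *
    ((2 * (n + 1)).choose (n + 1) : ℚ) ^ 2 * ((3 * (n + 1)).choose (n + 1) : ℚ) := by
  rw [S, S, sum_range_succ, mul_sum]
  congr 1
  · refine sum_congr rfl fun k hk => ?_
    rw [show n + 2 - 1 - k = n + 1 - 1 - k + 1 by have := mem_range.1 hk; omega, pow_succ]
    ring
  · simp

/-- integer term -/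
def X (j e : ℕ) : ℚ := 4 ^ (j + (j + 2 * e + 1)) * h j * h (j + 2 * e + 1) / (j + (j + 2 * e + 1))! / 4 *
  ((j + (2 * j + 3 * e + 2))! / (j ! * (2 * j + 3 * e + 2)!))

lemma Xint (j e : ℕ) (hj : 1 ≤ j + e) : ∃ z : ℤ, X j e = z := by
  obtain ⟨x, hx⟩ := sc4 (j + e - 1) j (j + 2 * e + 1) (by omega)
  obtain ⟨y, hy⟩ := bin j (2 * j + 3 * e + 2)
  exact ⟨x * y, by rw [X, hx, hy]; push_cast; ring⟩

lemma tm (j e : ℕ) : (-192 : ℚ) ^ (j + e) * A j (j + e + 1) = ((j + e + 1 : ℕ) : ℚ) *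
    ((2 * (j + e + 1)).choose (j + e + 1) : ℚ) * ((-3) ^ e * X j e) := by
  have h1 : (4 * ((j : ℚ) + e + 1) - 2 * j - 1) = 2 * j + 4 * e + 3 := by ring
  rw [Nat.cast_choose ℚ (by omega), show 2 * (j + e + 1) - (j + e + 1) = j + e + 1 by omega]
  simp only [A, T, X, show 2 * (j + e + 1) - j = j + 2 * e + 1 + 1 by omega,
    show 3 * (j + e + 1) - j = 2 * j + 3 * e + 2 + 1 by omega]
  simp only [show 3 * (j + e + 1) = j + (2 * j + 3 * e + 2) + 1 by ring,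
    show 2 * (j + e + 1) = j + (j + 2 * e + 1) + 1 by ring, factorial_succ (j + (j + 2 * e + 1)),
    factorial_succ (j + (2 * j + 3 * e + 2)), factorial_succ (2 * j + 3 * e + 2), h.eq_2 (j + 2 * e + 1),
    show (-192 : ℚ) = (-1) * (4 * 4 * 4 * 3) by norm_num, show (-3 : ℚ) = (-1) * 3 by norm_num, mul_pow,
    pow_add (-1 : ℚ)]
  push_cast
  rw [h1]
  rcases neg_one_pow_eq_or ℚ j with hj | hj <;> rw [hj] <;> field_simp <;> ring

lemma one (n : ℕ) : ∃ z : ℤ, S (n + 2) =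
    ((n + 2 : ℕ) : ℚ) * ((2 * (n + 2)).choose (n + 2) : ℚ) * (3 * z + X (n + 1) 0) := by
  have hp : (0 : ℚ) < (2 * (n + 2)).choose (n + 2) := by exact_mod_cast Nat.choose_pos (by omega)
  obtain ⟨z, hz⟩ := sum_int (n := n + 1) (f := fun j => (-192 : ℚ) ^ (n + 1) * A j (n + 2) /
      (((n + 2 : ℕ) : ℚ) * ((2 * (n + 2)).choose (n + 2) : ℚ)) / 3) fun j hj => by
    obtain ⟨e, he⟩ := Nat.exists_eq_add_of_lt hj
    obtain ⟨y, hy⟩ := Xint j (e + 1) (by omega)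
    rw [show n + 2 = j + (e + 1) + 1 by omega] at hp ⊢
    rw [he, add_assoc j, tm, mul_div_cancel_left₀ _ (by positivity), hy]
    exact ⟨-(-3) ^ e * y, by push_cast; ring⟩
  refine ⟨z, ?_⟩
  have e := tm (n + 1) 0
  rw [add_zero, pow_zero, one_mul] at e
  rw [S_eq, ← hz, sum_range_succ, mul_add, e, mul_add (_ * _), mul_sum, mul_sum, mul_sum]
  congr 1
  refine sum_congr rfl fun j _ => ?_
  field_simp

lemma main (m : ℕ) : ∃ b : ℤ, 3 * a (m + 2) = b ∧ (3 ∣ b ↔ ¬ IsP (2 * (m + 2) + 1)) := by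
  obtain ⟨x, hx⟩ := one m
  obtain ⟨x0, hx0⟩ := Xint (m + 1) 0 (by omega)
  obtain ⟨y, hy⟩ := one (m + 1)
  obtain ⟨y0, hy0⟩ := Xint (m + 2) 0 (by omega)
  obtain ⟨f, hf⟩ := fc (m + 2)
  have hs := step (m + 1)
  rw [show m + 1 + 1 = m + 2 from rfl] at hs hy
  obtain ⟨N, hN⟩ : ∃ N, N = m + 2 := ⟨_, rfl⟩
  rw [← hN] at hx hy hy0 hf hs ⊢
  have hC : ((m + 1 + 2 : ℕ) : ℚ) * ((2 * (m + 1 + 2)).choose (m + 1 + 2) : ℚ) =
      2 * (2 * N + 1) * ((2 * N).choose N : ℚ) := by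
    rw [cb, cb, show m + 1 + 2 = N + 1 by omega, h.eq_2, factorial_succ]
    push_cast
    field_simp
    ring
  have h3 : ((3 * N).choose N : ℚ) = (2 * N + 1) * f := by
    rw [← hf, Nat.cast_choose ℚ (by omega), show 3 * N - N = 2 * N by omega]
    field_simp
  have hCp : (0 : ℚ) < (2 * N).choose N := by exact_mod_cast Nat.choose_pos (by omega)
  have hNp : (0 : ℚ) < N := by rw [hN]; positivity
  have ha : S N = N * (2 * N + 1) * ((2 * N).choose N : ℚ) * a N := by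
    rw [a, ← S]; field_simp
  have I : (2 * N + 1) * a N = 3 * x + x0 := by
    apply mul_left_cancel₀ (mul_pos hNp hCp).ne'
    rw [← hx0, ← hx, ha]; ring
  have II : 192 * N * a N = (5 * N + 1) * ((2 * N).choose N : ℚ) * f - 6 * y - 2 * y0 := by
    rw [hy, hC, ha, h3, hy0] at hs
    apply mul_left_cancel₀ (show (2 * N + 1) * ((2 * N).choose N : ℚ) ≠ 0 by positivity)
    linear_combination hs
  obtain ⟨b, hb⟩ := int_of_coprime (q := 3 * a N) (a := 2 * N + 1) (b := 2 ^ 5 * (2 * N))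
    (x := 3 * (3 * x + x0)) (y := (5 * N + 1) * ((2 * N).choose N : ℤ) * f - 6 * y - 2 * y0)
    (IsCoprime.mul_right (IsCoprime.pow_right ⟨1, -(N : ℤ), by ring⟩) ⟨1, -1, by ring⟩)
    (by push_cast; linear_combination 3 * I) (by push_cast; linear_combination II)
  refine ⟨b, hb, ?_⟩
  by_cases h1 : N % 3 = 1
  · obtain ⟨k, hk⟩ : ∃ k, N = 3 * k + 1 := ⟨N / 3, by omega⟩
    have e1 : (64 * N * b : ℤ) = (5 * N + 1) * ((2 * N).choose N : ℤ) * f - 6 * y - 2 * y0 := by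
      have : (64 * N * b : ℚ) = (5 * N + 1) * ((2 * N).choose N : ℚ) * f - 6 * y - 2 * y0 := by
        rw [← hb, ← II]; ring
      exact_mod_cast this
    have e2 := key3 k (2 * y0) (by
      push_cast
      rw [← hy0, ← hk, X, mul_zero, add_zero, mul_zero, add_zero, h.eq_2 N,
        h_eq, show N + (2 * N + 2) = 3 * N + 2 by ring, show N + (N + 1) = 2 * N + 1 by ring,
        factorial_succ (2 * N)]
      push_cast
      field_simp
      ring)
    rw [← hk] at e2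
    rw [← e2]
    generalize ((2 * N).choose N : ℤ) = c at e1
    rw [hk] at e1
    push_cast at e1
    have : b = 3 * ((5 * k + 2) * c * f - 2 * y - 64 * k * b - 21 * b) - 2 * y0 := by linear_combination e1
    constructor <;> intro h <;> omega
  · refine iff_of_true ?_ (notP (by omega) (by omega))
    have : (2 * N + 1) * b = 3 * (3 * x + x0) := by
      have : (2 * N + 1 : ℚ) * b = 3 * (3 * x + x0) := by rw [← hb, ← I]; ring
      exact_mod_cast this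
    exact (Int.prime_three.dvd_mul.1 (Dvd.intro _ this.symm)).resolve_left (by omega)

theorem result (n : ℕ) (hn : 2 ≤ n) :
    ((¬ ∃ m : ℕ, 2 * n + 1 = 3 ^ m) → ∃ z : ℤ, a n = z) ∧
    ((∃ m : ℕ, 2 * n + 1 = 3 ^ m) → ∃ z : ℤ, 3 * a n = z ∧ ¬ 3 ∣ z) := by
  obtain ⟨n, rfl⟩ : ∃ m, n = m + 2 := ⟨n - 2, by omega⟩
  obtain ⟨b, h1, h2⟩ := main n
  refine ⟨fun h => ?_, fun hm => ⟨b, h1, fun h => h2.1 h hm⟩⟩
  obtain ⟨c, rfl⟩ := h2.2 h
  exact ⟨c, by push_cast at h1; linarith⟩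

end Pool.Agent.Results.MP_6a8d80_nt.Int
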